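import Mathlib

/-! One-way multicounter machines, partially blind machines, reversals. -/

namespace Pool.Agent.Lib.MP_24384b_lc

/-- A move of a machine with state set `Q` and `k` counters: the new state, whether the head
advances to the next cell, and the change (`-1`, `0` or `1`) of each counter. -/
structure Move (Q : Type) (k : ℕ) where
  state : Q
  adv : Bool
  change : Fin k → SignType

/-- A one-way multicounter machine over the alphabet `α`. The set of moves depends on the state,
on the scanned symbol (`none` if the whole input has been read) and on the function telling for
each counter whether it is zero. -/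
structure Machine (α : Type) where
  Q : Type
  finite : Finite Q
  k : ℕ
  start : Q
  final : Set Q
  moves : Q → Option α → (Fin k → Bool) → Set (Move Q k)

/-- The part of a configuration that does not concern the input: the state and the counters.
For each counter we also record the last nonzero change (`0` if there was none) and the number
of its reversals so far. -/
structure Core (Q : Type) (k : ℕ) where
  state : Q
  cnt : Fin k → ℕ
  dir : Fin k → SignType
  rev : Fin k → ℕ

/-- A configuration: a core and the unread part of the input, whose first symbol is scanned. -/
structure Cfg (Q α : Type) (k : ℕ) where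
  core : Core Q k
  rest : List α

/-- The effect of a move on a core. A reversal of counter `i` happens when its change is nonzero
and different from its last nonzero change. -/
def Core.exec {Q : Type} {k : ℕ} (s : Core Q k) (μ : Move Q k) : Core Q k where
  state := μ.state
  cnt i := ((s.cnt i : ℤ) + (μ.change i : ℤ)).toNat
  dir i := if μ.change i = 0 then s.dir i else μ.change i
  rev i := if s.dir i ≠ 0 ∧ μ.change i ≠ 0 ∧ μ.change i ≠ s.dir i then s.rev i + 1 else s.rev i

/-- The conventions that the informal definition leaves open; every combination is allowed. -/
structure Conv where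
  /-- moves are also possible when the whole input has been read -/
  endMoves : Bool
  /-- acceptance requires that the whole input has been read -/
  readAll : Bool
  /-- determinism is only required in configurations that are reachable from an initial one -/
  reachOnly : Bool
  /-- the bound on reversals is a bound for each counter separately (not for their total) -/
  perCounter : Bool

variable {α : Type}

/-- The move `μ` is allowed by the table of moves and makes no counter negative. -/
def Enabled (M : Machine α) (s : Core M.Q M.k) (x : Option α) (μ : Move M.Q M.k) : Prop :=
  μ ∈ M.moves s.state x (fun i => decide (s.cnt i = 0)) ∧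
    ∀ i, 0 ≤ (s.cnt i : ℤ) + (μ.change i : ℤ)

/-- The move `μ` is possible in the configuration `c`. -/
def Possible (v : Conv) (M : Machine α) (c : Cfg M.Q α M.k) (μ : Move M.Q M.k) : Prop :=
  Enabled M c.core c.rest.head? μ ∧ (c.rest = [] → v.endMoves = true ∧ μ.adv = false)

/-- The configuration after the move `μ`. -/
def Cfg.exec {Q : Type} {k : ℕ} (c : Cfg Q α k) (μ : Move Q k) : Cfg Q α k where
  core := c.core.exec μ
  rest := if μ.adv = true then c.rest.tail else c.rest

/-- One step of the machine. -/
def Step (v : Conv) (M : Machine α) (c c' : Cfg M.Q α M.k) : Prop :=
  ∃ μ, Possible v M c μ ∧ c' = c.exec μ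

/-- `c'` can be reached from `c` in finitely many steps. -/
def Reaches (v : Conv) (M : Machine α) : Cfg M.Q α M.k → Cfg M.Q α M.k → Prop :=
  Relation.ReflTransGen (Step v M)

/-- The initial configuration on input `w`: all counters are `0`. -/
def init (M : Machine α) (w : List α) : Cfg M.Q α M.k where
  core := ⟨M.start, fun _ => 0, fun _ => 0, fun _ => 0⟩
  rest := w

/-- `c'` arises from `c` by `n` steps during which the head stays on the same cell. -/
def StayN (v : Conv) (M : Machine α) : ℕ → Cfg M.Q α M.k → Cfg M.Q α M.k → Prop
  | 0, c, c' => c = c'
  | n + 1, c, c' => ∃ c₁, Step v M c c₁ ∧ c₁.rest = c.rest ∧ StayN v M n c₁ c'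

/-- Quasi-realtime: the length of all stretches of computations during which the head stays on
the same cell is bounded by a constant. -/
def QuasiRealtime (v : Conv) (M : Machine α) : Prop :=
  ∃ d : ℕ, ∀ (w : List α) (c : Cfg M.Q α M.k), Reaches v M (init M w) c →
    ∀ (n : ℕ) (c' : Cfg M.Q α M.k), StayN v M n c c' → n ≤ d

/-- Deterministic: in every configuration at most one move is possible. -/
def Deterministic (v : Conv) (M : Machine α) : Prop :=
  ∀ c : Cfg M.Q α M.k, (v.reachOnly = true → ∃ w, Reaches v M (init M w) c) →
    ∀ μ μ' : Move M.Q M.k, Possible v M c μ → Possible v M c μ' → μ = μ'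

/-- Partially blind: the moves never depend on whether counters are zero. -/
def PartiallyBlind (M : Machine α) : Prop :=
  ∀ q x z z', M.moves q x z = M.moves q x z'

/-- The words that have an accepting computation with at most `c` reversals. -/
def LR (v : Conv) (c : ℕ) (M : Machine α) : Set (List α) :=
  {w | ∃ C, Reaches v M (init M w) C ∧ C.core.state ∈ M.final ∧ (∀ i, C.core.cnt i = 0) ∧
    (v.readAll = true → C.rest = []) ∧
    (if v.perCounter = true then ∀ i, C.core.rev i ≤ c else ∑ i, C.core.rev i ≤ c)}

/-- The languages over `α` in `L_Rc(QR-DCOUNTER)`. -/
def QRDCounter (v : Conv) (c : ℕ) (α : Type) : Set (Set (List α)) :=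
  {L | ∃ M : Machine α, Deterministic v M ∧ QuasiRealtime v M ∧ L = LR v c M}

/-- The languages over `α` in `L_Rc(QR-DPBLIND)`. -/
def QRDPBlind (v : Conv) (c : ℕ) (α : Type) : Set (Set (List α)) :=
  {L | ∃ M : Machine α, PartiallyBlind M ∧ Deterministic v M ∧ QuasiRealtime v M ∧ L = LR v c M}

end Pool.Agent.Lib.MP_24384b_lc
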