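import Mathlib
import Pool.Agent.Lib.MP_24384b_lc.Defs

namespace Pool.Agent.Lib.MP_24384b_lc

variable {α : Type} {v : Conv} {M : Machine α}

/-- `Eat M x s s'`: the machine reads exactly the word `x`, from the core `s` to the core `s'`. -/
inductive Eat (M : Machine α) : List α → Core M.Q M.k → Core M.Q M.k → Prop
  | nil (s) : Eat M [] s s
  | stay {a x s s' μ} : Enabled M s (some a) μ → μ.adv = false →
      Eat M (a :: x) (s.exec μ) s' → Eat M (a :: x) s s'
  | adv {a x s s' μ} : Enabled M s (some a) μ → μ.adv = true →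
      Eat M x (s.exec μ) s' → Eat M (a :: x) s s'

theorem step_stay {s : Core M.Q M.k} {a : α} {x : List α} {μ : Move M.Q M.k}
    (h : Enabled M s (some a) μ) (hμ : μ.adv = false) :
    Step v M ⟨s, a :: x⟩ ⟨s.exec μ, a :: x⟩ :=
  ⟨μ, ⟨by simpa using h, by simp⟩, by simp [Cfg.exec, hμ]⟩

theorem step_adv {s : Core M.Q M.k} {a : α} {x : List α} {μ : Move M.Q M.k}
    (h : Enabled M s (some a) μ) (hμ : μ.adv = true) :
    Step v M ⟨s, a :: x⟩ ⟨s.exec μ, x⟩ :=
  ⟨μ, ⟨by simpa using h, by simp⟩, by simp [Cfg.exec, hμ]⟩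

theorem Eat.reaches {x : List α} {s s' : Core M.Q M.k} (h : Eat M x s s') (y : List α) :
    Reaches v M ⟨s, x ++ y⟩ ⟨s', y⟩ := by
  induction h with
  | nil s => exact Relation.ReflTransGen.refl
  | stay h1 h2 _ ih => exact Relation.ReflTransGen.head (step_stay h1 h2) ih
  | adv h1 h2 _ ih => exact Relation.ReflTransGen.head (step_adv h1 h2) ih

/-- A step changes the unread input to itself or to its tail. -/
theorem Step.cases {c c' : Cfg M.Q α M.k} (h : Step v M c c') :
    ∃ μ, Enabled M c.core c.rest.head? μ ∧ c'.core = c.core.exec μ ∧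
      ((μ.adv = false ∧ c'.rest = c.rest ∧ (c.rest = [] → v.endMoves = true)) ∨
        (μ.adv = true ∧ c.rest ≠ [] ∧ c'.rest = c.rest.tail)) := by
  obtain ⟨μ, ⟨h1, h2⟩, rfl⟩ := h
  refine ⟨μ, h1, rfl, ?_⟩
  cases hμ : μ.adv with
  | false => left; exact ⟨rfl, by simp [Cfg.exec, hμ], fun h => (h2 h).1⟩
  | true =>
    right
    refine ⟨rfl, ?_, by simp [Cfg.exec, hμ]⟩
    intro h
    have := (h2 h).2
    rw [hμ] at this
    exact absurd this (by simp)

/-- Decomposition of a computation on `x ++ y`. -/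
theorem decompose {c D : Cfg M.Q α M.k} (h : Reaches v M c D) :
    ∀ (s : Core M.Q M.k) (x y : List α), c = ⟨s, x ++ y⟩ →
    (∃ s', Eat M x s s' ∧ Reaches v M ⟨s', y⟩ D) ∨
      (∃ z, z ≠ [] ∧ D.rest = z ++ y ∧ ∀ y', Reaches v M ⟨s, x ++ y'⟩ ⟨D.core, z ++ y'⟩) := by
  induction h using Relation.ReflTransGen.head_induction_on with
  | refl =>
    intro s x y hc
    cases x with
    | nil => left; exact ⟨s, Eat.nil s, by rw [hc]; exact Relation.ReflTransGen.refl⟩
    | cons a x =>
      right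
      refine ⟨a :: x, by simp, by rw [hc], fun y' => ?_⟩
      rw [hc]
      exact Relation.ReflTransGen.refl
  | @head c c₁ hstep hrest ih =>
    intro s x y hc
    cases x with
    | nil =>
      left
      refine ⟨s, Eat.nil s, ?_⟩
      rw [show (⟨s, y⟩ : Cfg M.Q α M.k) = c by rw [hc]; rfl]
      exact Relation.ReflTransGen.head hstep hrest
    | cons a x =>
      subst hc
      obtain ⟨μ, h1, h2, h3⟩ := hstep.cases
      simp only [List.cons_append, List.head?_cons] at h1 h2 h3
      rcases h3 with ⟨h4, h5, -⟩ | ⟨h4, -, h5⟩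
      · have hc1 : c₁ = ⟨s.exec μ, (a :: x) ++ y⟩ := by
          cases c₁; simp only at h2 h5; rw [h2, h5]; rfl
        rcases ih (s.exec μ) (a :: x) y hc1 with ⟨s', e1, e2⟩ | ⟨z, z1, z2, z3⟩
        · left; exact ⟨s', Eat.stay h1 h4 e1, e2⟩
        · right
          refine ⟨z, z1, z2, fun y' => ?_⟩
          exact Relation.ReflTransGen.head (step_stay h1 h4) (z3 y')
      · have hc1 : c₁ = ⟨s.exec μ, x ++ y⟩ := by
          cases c₁; simp only [List.tail_cons] at h2 h5; rw [h2, h5]
        rcases ih (s.exec μ) x y hc1 with ⟨s', e1, e2⟩ | ⟨z, z1, z2, z3⟩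
        · left; exact ⟨s', Eat.adv h1 h4 e1, e2⟩
        · right
          refine ⟨z, z1, z2, fun y' => ?_⟩
          exact Relation.ReflTransGen.head (step_adv h1 h4) (z3 y')

/-- A core is live if it occurs, with the unread input `x`, in a reachable configuration. -/
def Live (v : Conv) (M : Machine α) (s : Core M.Q M.k) (x : List α) : Prop :=
  ∃ w, Reaches v M (init M w) ⟨s, x⟩

theorem possible_of {s : Core M.Q M.k} {a : α} {x : List α} {μ : Move M.Q M.k}
    (h : Enabled M s (some a) μ) : Possible v M ⟨s, a :: x⟩ μ :=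
  ⟨by simpa using h, by simp⟩

theorem Eat.unique (hdet : Deterministic v M) {x : List α} {s s₁ : Core M.Q M.k}
    (h₁ : Eat M x s s₁) : ∀ {s₂ : Core M.Q M.k} {y : List α}, Eat M x s s₂ →
      Live v M s (x ++ y) → s₁ = s₂ := by
  induction h₁ with
  | nil s =>
    intro s₂ y h₂ _
    cases h₂
    rfl
  | @stay a x s s' μ h1 h2 h3 ih =>
    intro s₂ y h₂ hl
    cases h₂ with
    | @stay _ _ _ _ μ' g1 g2 g3 =>
      have : μ = μ' := hdet ⟨s, a :: x ++ y⟩ (fun _ => hl) μ μ' (possible_of h1) (possible_of g1)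
      subst this
      refine ih (y := y) g3 ?_
      obtain ⟨w, hw⟩ := hl
      exact ⟨w, hw.tail (step_stay h1 h2)⟩
    | @adv _ _ _ _ μ' g1 g2 g3 =>
      have : μ = μ' := hdet ⟨s, a :: x ++ y⟩ (fun _ => hl) μ μ' (possible_of h1) (possible_of g1)
      subst this
      rw [h2] at g2
      exact absurd g2 (by simp)
  | @adv a x s s' μ h1 h2 h3 ih =>
    intro s₂ y h₂ hl
    cases h₂ with
    | @stay _ _ _ _ μ' g1 g2 g3 =>
      have : μ = μ' := hdet ⟨s, a :: x ++ y⟩ (fun _ => hl) μ μ' (possible_of h1) (possible_of g1)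
      subst this
      rw [h2] at g2
      exact absurd g2 (by simp)
    | @adv _ _ _ _ μ' g1 g2 g3 =>
      have : μ = μ' := hdet ⟨s, a :: x ++ y⟩ (fun _ => hl) μ μ' (possible_of h1) (possible_of g1)
      subst this
      refine ih (y := y) g3 ?_
      obtain ⟨w, hw⟩ := hl
      exact ⟨w, hw.tail (step_adv h1 h2)⟩

/-- Add the vector `u` to the counters. -/
def Core.add {Q : Type} {k : ℕ} (s : Core Q k) (u : Fin k → ℕ) : Core Q k :=
  { s with cnt := fun i => s.cnt i + u i }

theorem Core.exec_add {s : Core M.Q M.k} {μ : Move M.Q M.k} {x : Option α}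
    (h : Enabled M s x μ) (u : Fin M.k → ℕ) : (s.add u).exec μ = (s.exec μ).add u := by
  simp only [Core.exec, Core.add, Core.mk.injEq, true_and, and_true]
  funext i
  have := h.2 i
  push_cast
  omega

theorem Enabled.add (hb : PartiallyBlind M) {s : Core M.Q M.k} {μ : Move M.Q M.k} {x : Option α}
    (h : Enabled M s x μ) (u : Fin M.k → ℕ) : Enabled M (s.add u) x μ := by
  refine ⟨?_, fun i => ?_⟩
  · rw [hb _ _ _ (fun i => decide (s.cnt i = 0))]
    exact h.1
  · have := h.2 i
    simp only [Core.add]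
    push_cast
    omega

theorem Eat.add (hb : PartiallyBlind M) {x : List α} {s s' : Core M.Q M.k} (h : Eat M x s s')
    (u : Fin M.k → ℕ) : Eat M x (s.add u) (s'.add u) := by
  induction h with
  | nil s => exact Eat.nil _
  | stay h1 h2 _ ih =>
    refine Eat.stay (h1.add hb u) h2 ?_
    rw [Core.exec_add h1]
    exact ih
  | adv h1 h2 _ ih =>
    refine Eat.adv (h1.add hb u) h2 ?_
    rw [Core.exec_add h1]
    exact ih

theorem exec_cnt_le (s : Core M.Q M.k) (μ : Move M.Q M.k) (i : Fin M.k) :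
    s.cnt i ≤ (s.exec μ).cnt i + 1 := by
  simp only [Core.exec]
  have : (-1 : ℤ) ≤ (μ.change i : ℤ) := by cases μ.change i <;> simp
  omega

theorem StayN.cnt_le {n : ℕ} : ∀ {c c' : Cfg M.Q α M.k}, StayN v M n c c' →
    ∀ i, c.core.cnt i ≤ c'.core.cnt i + n := by
  induction n with
  | zero =>
    intro c c' h i
    rw [show c = c' from h]
    exact le_rfl
  | succ n ih =>
    rintro c c' ⟨c₁, h1, h2, h3⟩ i
    have h4 := ih h3 i
    obtain ⟨μ, -, h5, -⟩ := h1.cases
    have h6 := exec_cnt_le c.core μ i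
    rw [← h5] at h6
    omega

theorem Reaches.length_le {c c' : Cfg M.Q α M.k} (h : Reaches v M c c') :
    c'.rest.length ≤ c.rest.length := by
  induction h with
  | refl => exact le_rfl
  | tail _ hstep ih =>
    obtain ⟨μ, -, -, h⟩ := hstep.cases
    rcases h with ⟨-, h, -⟩ | ⟨-, -, h⟩
    · rw [h]; exact ih
    · rw [h, List.length_tail]; omega

/-- A computation that does not change the unread input is a stretch. -/
theorem Reaches.stayN {c c' : Cfg M.Q α M.k} (h : Reaches v M c c')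
    (hr : c'.rest.length = c.rest.length) : ∃ n, StayN v M n c c' := by
  induction h using Relation.ReflTransGen.head_induction_on with
  | refl => exact ⟨0, rfl⟩
  | @head c c₁ hstep hrest ih =>
    have h1 : c'.rest.length ≤ c₁.rest.length := Reaches.length_le hrest
    obtain ⟨μ, -, -, h⟩ := hstep.cases
    rcases h with ⟨-, h, -⟩ | ⟨-, h0, h⟩
    · obtain ⟨n, hn⟩ := ih (by rw [h]; exact hr)
      exact ⟨n + 1, c₁, hstep, h, hn⟩
    · exfalso
      rw [h, List.length_tail] at h1
      have : c.rest.length ≠ 0 := fun h => h0 (List.length_eq_zero_iff.1 h)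
      omega

theorem Eat.cons_cases {a : α} {x : List α} {s s' : Core M.Q M.k} (h : Eat M (a :: x) s s')
    (y : List α) : ∃ (n : ℕ) (s₁ : Core M.Q M.k) (μ : Move M.Q M.k),
      StayN v M n ⟨s, a :: x ++ y⟩ ⟨s₁, a :: x ++ y⟩ ∧ Enabled M s₁ (some a) μ ∧ μ.adv = true ∧
      Eat M x (s₁.exec μ) s' := by
  generalize hz : a :: x = z at h
  induction h generalizing a x with
  | nil s => simp at hz
  | @stay b t s s' μ h1 h2 _ ih =>
    obtain ⟨n, s₁, μ', g1, g2, g3, g4⟩ := ih hz
    cases hz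
    exact ⟨n + 1, s₁, μ', ⟨⟨s.exec μ, b :: t ++ y⟩, step_stay h1 h2, rfl, g1⟩, g2, g3, g4⟩
  | @adv b t s s' μ h1 h2 h3 _ =>
    cases hz
    exact ⟨0, s, μ, rfl, h1, h2, h3⟩

/-- If a live core with one unread symbol leads to a configuration with empty counters, then
its counters are bounded. -/
theorem cnt_bound {d : ℕ} (hd : ∀ (w : List α) (c : Cfg M.Q α M.k), Reaches v M (init M w) c →
    ∀ (n : ℕ) (c' : Cfg M.Q α M.k), StayN v M n c c' → n ≤ d) {s : Core M.Q M.k} {a : α}
    (hl : Live v M s [a]) {C : Cfg M.Q α M.k} (hC : Reaches v M ⟨s, [a]⟩ C)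
    (h0 : ∀ i, C.core.cnt i = 0) (i : Fin M.k) : s.cnt i ≤ 2 * d + 1 := by
  obtain ⟨w, hw⟩ := hl
  rcases decompose hC s [a] [] (by simp) with ⟨s', e1, e2⟩ | ⟨z, z1, z2, z3⟩
  · obtain ⟨n, s₁, μ, g1, g2, g3, g4⟩ := e1.cons_cases (v := v) []
    cases g4
    have hn : n ≤ d := hd w _ hw n _ (by simpa using g1)
    have h0' : Reaches v M ⟨s, [a]⟩ ⟨s₁.exec μ, []⟩ := by simpa using e1.reaches (v := v) []
    have h1 : Reaches v M (init M w) ⟨s₁.exec μ, []⟩ := Relation.ReflTransGen.trans hw h0'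
    obtain ⟨m, hm⟩ := e2.stayN (by
      have := e2.length_le
      simp only [List.length_nil] at this ⊢
      omega)
    have hmd : m ≤ d := hd w _ h1 m _ hm
    have k1 := StayN.cnt_le g1 i
    have k2 := StayN.cnt_le hm i
    have k3 := exec_cnt_le s₁ μ i
    have k4 := h0 i
    simp only at k1 k2
    omega
  · have h1 : C.rest.length = 1 := by
      have l1 := hC.length_le
      rw [z2] at l1 ⊢
      simp only [List.append_nil, List.length_cons, List.length_nil] at l1 ⊢
      have : z.length ≠ 0 := fun h => z1 (List.length_eq_zero_iff.1 h)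
      omega
    obtain ⟨n, hn⟩ := hC.stayN (by simpa using h1)
    have hnd : n ≤ d := hd w _ hw n _ hn
    have k1 := StayN.cnt_le hn i
    have k4 := h0 i
    simp only at k1
    omega

theorem exec_rev_le (s : Core M.Q M.k) (μ : Move M.Q M.k) (i : Fin M.k) :
    s.rev i ≤ (s.exec μ).rev i := by
  simp only [Core.exec]
  split_ifs <;> omega

theorem Reaches.rev_le {c c' : Cfg M.Q α M.k} (h : Reaches v M c c') (i : Fin M.k) :
    c.core.rev i ≤ c'.core.rev i := by
  induction h with
  | refl => exact le_rfl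
  | @tail b _ _ hstep ih =>
    obtain ⟨μ, -, h, -⟩ := hstep.cases
    have := exec_rev_le (M := M) b.core μ i
    rw [← h] at this
    exact ih.trans this

theorem rev_le_of {c : ℕ} {C : Cfg M.Q α M.k}
    (h : if v.perCounter = true then ∀ i, C.core.rev i ≤ c else ∑ i, C.core.rev i ≤ c)
    (i : Fin M.k) : C.core.rev i ≤ c := by
  split_ifs at h with hv
  · exact h i
  · exact (Finset.single_le_sum (f := fun i => C.core.rev i) (fun _ _ => Nat.zero_le _)
      (Finset.mem_univ i)).trans h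

end Pool.Agent.Lib.MP_24384b_lc
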