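import Mathlib
import Pool.Agent.Lib.MP_24384b_lc.Basic

namespace Pool.Agent.Lib.MP_24384b_lc

variable {α : Type} {v : Conv} {M : Machine α} {c : ℕ}

/-- The configuration `C` is accepting (with at most `c` reversals). -/
def Acc (v : Conv) (c : ℕ) (M : Machine α) (C : Cfg M.Q α M.k) : Prop :=
  C.core.state ∈ M.final ∧ (∀ i, C.core.cnt i = 0) ∧ (v.readAll = true → C.rest = []) ∧
    (if v.perCounter = true then ∀ i, C.core.rev i ≤ c else ∑ i, C.core.rev i ≤ c)

theorem mem_LR {w : List α} : w ∈ LR v c M ↔ ∃ C, Reaches v M (init M w) C ∧ Acc v c M C :=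
  Iff.rfl

/-- If `u ++ (x ++ y)` is accepted, the part `u` is read and `u ++ x` is not accepted then the
computation reads `x` completely. -/
theorem split {u x y : List α} {s : Core M.Q M.k} (hs : Eat M u (init M []).core s)
    (hy : y ≠ []) {C : Cfg M.Q α M.k} (hC : Reaches v M ⟨s, x ++ y⟩ C) (hA : Acc v c M C)
    (hno : u ++ x ∉ LR v c M) :
    ∃ t, Eat M x s t ∧ Reaches v M ⟨t, y⟩ C := by
  rcases decompose hC s x y rfl with h | ⟨z, z1, z2, z3⟩
  · exact h
  · exfalso
    apply hno
    have hrest : C.rest ≠ [] := by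
      rw [z2]
      intro h
      exact z1 (List.append_eq_nil_iff.1 h).1
    have hv : v.readAll ≠ true := fun h => hrest (hA.2.2.1 h)
    refine ⟨⟨C.core, z⟩, ?_, hA.1, hA.2.1, fun h => absurd h hv, hA.2.2.2⟩
    have h1 : Reaches v M (init M (u ++ x)) ⟨s, x⟩ := hs.reaches x
    have h2 := z3 []
    simp only [List.append_nil] at h2
    exact Relation.ReflTransGen.trans h1 h2

/-- The witness language is not accepted by any deterministic quasi-realtime partially blind
machine, for any bound on the number of reversals. -/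
theorem no_blind (hb : PartiallyBlind M) (hdet : Deterministic v M) (hqr : QuasiRealtime v M)
    (a b e : α)
    (hL1 : ∀ n m, List.replicate n a ++ (List.replicate m b ++ [e]) ∈ LR v c M ↔ n ≤ m)
    (hL2 : ∀ n m, List.replicate n a ++ List.replicate m b ∉ LR v c M) : False := by
  obtain ⟨d, hd⟩ := hqr
  have hfin : Finite M.Q := M.finite
  let s₀ := (init M []).core
  -- cores after reading `a ^ n`
  have hex : ∀ n, ∃ s, Eat M (List.replicate n a) s₀ s ∧ ∀ i, s.rev i ≤ c := by
    intro n
    obtain ⟨C, hC, hA⟩ := (hL1 n n).2 le_rfl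
    obtain ⟨s, h1, h2⟩ := split (c := c) (u := []) (x := List.replicate n a)
      (y := List.replicate n b ++ [e]) (s := s₀) (Eat.nil _) (by simp) hC hA
      (by simpa using hL2 n 0)
    exact ⟨s, h1, fun i => (h2.rev_le i).trans (rev_le_of hA.2.2.2 i)⟩
  choose s hs hrev using hex
  -- the computation on `a ^ n b ^ m e` for `n ≤ m`
  have hrun : ∀ n m, n ≤ m → ∃ t, Eat M (List.replicate m b) (s n) t ∧
      ∀ i, t.cnt i ≤ 2 * d + 1 := by
    intro n m hnm
    obtain ⟨C, hC, hA⟩ := (hL1 n m).2 hnm
    obtain ⟨s', h1, h2⟩ := split (c := c) (u := []) (x := List.replicate n a)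
      (y := List.replicate m b ++ [e]) (s := s₀) (Eat.nil _) (by simp) hC hA
      (by simpa using hL2 n 0)
    have he : s n = s' := (hs n).unique hdet (y := List.replicate m b ++ [e]) h1
      ⟨_, Relation.ReflTransGen.refl⟩
    subst he
    obtain ⟨t, h3, h4⟩ := split (c := c) (hs n) (by simp) h2 hA (hL2 n m)
    refine ⟨t, h3, fun i => ?_⟩
    refine cnt_bound hd (a := e) ?_ h4 hA.2.1 i
    refine ⟨List.replicate n a ++ (List.replicate m b ++ [e]), ?_⟩
    exact Relation.ReflTransGen.trans (h1.reaches _) (h3.reaches _)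
  -- monotone subsequence
  let r : (M.Q × (Fin M.k → SignType) × (Fin M.k → Fin (c + 1))) × (Fin M.k → ℕ) →
      (M.Q × (Fin M.k → SignType) × (Fin M.k → Fin (c + 1))) × (Fin M.k → ℕ) → Prop :=
    fun x y => x.1 = y.1 ∧ x.2 ≤ y.2
  have hwqo : WellQuasiOrdered r := by
    refine WellQuasiOrdered.prod (r := fun x y => x = y) (s := fun x y => x ≤ y) ?_ ?_
    · exact Finite.wellQuasiOrdered _
    · exact wellQuasiOrdered_le
  have hpre : IsPreorder _ r :=
    { refl := fun x => ⟨rfl, le_rfl⟩
      trans := fun x y z h1 h2 => ⟨h1.1.trans h2.1, h1.2.trans h2.2⟩ }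
  let F : ℕ → (M.Q × (Fin M.k → SignType) × (Fin M.k → Fin (c + 1))) × (Fin M.k → ℕ) :=
    fun n => (((s n).state, (s n).dir, fun i => ⟨(s n).rev i, Nat.lt_succ_of_le (hrev n i)⟩),
      (s n).cnt)
  obtain ⟨g, hg⟩ := hwqo.exists_monotone_subseq F
  have hinfo : ∀ m n, m ≤ n → (s (g m)).state = (s (g n)).state ∧
      (s (g m)).dir = (s (g n)).dir ∧ (s (g m)).rev = (s (g n)).rev ∧
      ∀ i, (s (g m)).cnt i ≤ (s (g n)).cnt i := by
    intro m n hmn
    obtain ⟨h1, h2⟩ := hg m n hmn
    have h3 : (s (g m)).state = (s (g n)).state := congrArg Prod.fst h1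
    have h4 : (s (g m)).dir = (s (g n)).dir := congrArg (fun x => x.2.1) h1
    have h5 := congrArg (fun x => x.2.2) h1
    refine ⟨h3, h4, ?_, fun i => h2 i⟩
    funext i
    have := congrFun h5 i
    simpa [F] using this
  -- the differences are bounded
  have hbd : ∀ n i, (s (g n)).cnt i ≤ (s (g 0)).cnt i + (2 * d + 1) := by
    intro n i
    obtain ⟨h1, h2, h3, h4⟩ := hinfo 0 n (Nat.zero_le n)
    obtain ⟨t, ht, -⟩ := hrun (g 0) (g n) (g.monotone (Nat.zero_le n))
    obtain ⟨t', ht', hb'⟩ := hrun (g n) (g n) le_rfl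
    let u : Fin M.k → ℕ := fun i => (s (g n)).cnt i - (s (g 0)).cnt i
    have hsu : (s (g 0)).add u = s (g n) := by
      cases hx : s (g n) with
      | mk st cn di re =>
        rw [hx] at h1 h2 h3 h4
        simp only at h1 h2 h3 h4
        simp only [Core.add, Core.mk.injEq]
        refine ⟨h1, ?_, h2, h3⟩
        funext j
        have := h4 j
        simp only [u, hx]
        omega
    have h5 := ht.add hb u
    rw [hsu] at h5
    have h6 : t.add u = t' := by
      refine h5.unique hdet (y := [e]) ht' ?_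
      exact ⟨List.replicate (g n) a ++ (List.replicate (g n) b ++ [e]), (hs (g n)).reaches _⟩
    have h7 := hb' i
    rw [← h6] at h7
    simp only [Core.add, u] at h7
    omega
  -- two cores coincide
  let G : ℕ → (Fin M.k → Fin (2 * d + 2)) := fun n i =>
    ⟨(s (g n)).cnt i - (s (g 0)).cnt i, by have := hbd n i; omega⟩
  obtain ⟨m, n, hmn, hG⟩ := Finite.exists_ne_map_eq_of_infinite G
  wlog hlt : m < n generalizing m n
  · exact this n m (Ne.symm hmn) hG.symm (by omega)
  have hcore : s (g m) = s (g n) := by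
    obtain ⟨h1, h2, h3, h4⟩ := hinfo m n hlt.le
    obtain ⟨-, -, -, h5⟩ := hinfo 0 m (Nat.zero_le m)
    obtain ⟨-, -, -, h6⟩ := hinfo 0 n (Nat.zero_le n)
    cases hx : s (g n) with
    | mk st cn di re =>
      cases hy : s (g m) with
      | mk st' cn' di' re' =>
        rw [hx, hy] at h1 h2 h3
        rw [hy] at h5
        rw [hx] at h6
        simp only at h1 h2 h3
        simp only [Core.mk.injEq]
        refine ⟨h1, ?_, h2, h3⟩
        funext j
        have e1 := congrFun hG j
        simp only [G, hx, hy, Fin.mk.injEq] at e1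
        have e2 := h5 j
        have e3 := h6 j
        simp only at e2 e3
        omega
  -- contradiction
  have hgt : g m < g n := g.strictMono hlt
  obtain ⟨C, hC, hA⟩ := (hL1 (g m) (g m)).2 le_rfl
  obtain ⟨s', h1, h2⟩ := split (c := c) (u := []) (x := List.replicate (g m) a)
    (y := List.replicate (g m) b ++ [e]) (s := s₀) (Eat.nil _) (by simp) hC hA
    (by simpa using hL2 (g m) 0)
  have he : s (g m) = s' := (hs (g m)).unique hdet (y := List.replicate (g m) b ++ [e]) h1
    ⟨_, Relation.ReflTransGen.refl⟩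
  rw [← he, hcore] at h2
  have h3 : List.replicate (g n) a ++ (List.replicate (g m) b ++ [e]) ∈ LR v c M :=
    ⟨C, Relation.ReflTransGen.trans ((hs (g n)).reaches _) h2, hA⟩
  have := (hL1 (g n) (g m)).1 h3
  omega

end Pool.Agent.Lib.MP_24384b_lc
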