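import Mathlib
import Pool.Agent.Lib.MP_24384b_lc.Lower

namespace Pool.Agent.Lib.MP_24384b_lc

/-- Table of the witness machine: state, scanned symbol and emptiness of the counter are mapped
to the new state and the change of the counter. -/
def tbl : Fin 3 → Option (Fin 3) → Bool → Option (Fin 3 × SignType)
  | 0, some 0, _ => some (0, 1)
  | 0, some 1, true => some (1, 0)
  | 0, some 1, false => some (1, -1)
  | 0, some 2, true => some (2, 0)
  | 1, some 1, true => some (1, 0)
  | 1, some 1, false => some (1, -1)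
  | 1, some 2, true => some (2, 0)
  | _, _, _ => none

/-- A deterministic realtime machine with one counter. -/
def W : Machine (Fin 3) where
  Q := Fin 3
  finite := inferInstance
  k := 1
  start := 0
  final := {2}
  moves q x z := {μ | ∃ p, tbl q x (z 0) = some p ∧ μ = ⟨p.1, true, fun _ => p.2⟩}

variable {v : Conv}

theorem W_deterministic : Deterministic v W := by
  rintro c - μ μ' ⟨⟨⟨p, hp, rfl⟩, -⟩, -⟩ ⟨⟨⟨p', hp', rfl⟩, -⟩, -⟩
  rw [hp] at hp'
  cases hp'
  rfl

theorem W_quasiRealtime : QuasiRealtime v W := by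
  refine ⟨0, fun w c _ n c' hn => ?_⟩
  cases n with
  | zero => exact le_rfl
  | succ n =>
    exfalso
    obtain ⟨c₁, ⟨μ, ⟨⟨⟨p, hp, rfl⟩, -⟩, h2⟩, rfl⟩, h3, -⟩ := hn
    simp only [Cfg.exec, if_true] at h3
    cases hr : c.rest with
    | nil =>
      have := (h2 hr).2
      simp at this
    | cons a x =>
      rw [hr] at h3
      simp at h3

/-- Invariant of the computations of `W` on `0 ^ n 1 ^ m tl`. -/
def Inv (n m : ℕ) (tl : List (Fin 3)) (c : Cfg W.Q (Fin 3) W.k) : Prop :=
  (∃ i ≤ n, c.rest = List.replicate i 0 ++ (List.replicate m 1 ++ tl) ∧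
      c.core.state = (0 : Fin 3) ∧ c.core.cnt (0 : Fin 1) = n - i) ∨
  (∃ j ≤ m, c.rest = List.replicate j 1 ++ tl ∧
      c.core.state = (1 : Fin 3) ∧ c.core.cnt (0 : Fin 1) = n - (m - j)) ∨
  (c.core.state = (2 : Fin 3) ∧ tl = [2] ∧ c.rest = [] ∧ n ≤ m)

theorem inv_step {n m : ℕ} {tl : List (Fin 3)} (htl : tl = [] ∨ tl = [2])
    {c c' : Cfg W.Q (Fin 3) W.k} (h : Inv n m tl c) (hs : Step v W c c') : Inv n m tl c' := by
  obtain ⟨μ, ⟨⟨⟨p, hp, rfl⟩, h1⟩, h2⟩, rfl⟩ := hs
  have hfin : c.core.state = (2 : Fin 3) → False := by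
    intro h
    rw [h] at hp
    simp [tbl] at hp
  -- reading the last symbol
  have hlast : ∀ q : Fin 3, (q = 0 ∨ q = 1) → c.core.state = q → c.rest = tl →
      c.core.cnt (0 : Fin 1) = n - m → Inv n m tl (c.exec ⟨p.1, true, fun _ => p.2⟩) := by
    intro q hq hst hr hcnt
    rcases htl with rfl | rfl
    · exfalso
      have := (h2 hr).2
      simp at this
    · by_cases hz : c.core.cnt (0 : Fin 1) = 0
      · have hp2 : p = (2, 0) := by
          rw [hst, hr] at hp
          simp only [List.head?_cons] at hp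
          have hz' : (decide (c.core.cnt (0 : Fin 1) = 0)) = true := by simp [hz]
          have hp' : tbl q (some 2) true = some p := by rw [← hz']; exact hp
          rcases hq with rfl | rfl
          · simpa [tbl] using hp'.symm
          · simpa [tbl] using hp'.symm
        right; right
        refine ⟨?_, rfl, ?_, by omega⟩
        · simp [Cfg.exec, Core.exec, hp2]
        · simp [Cfg.exec, hr]
      · exfalso
        rw [hst, hr] at hp
        simp only [List.head?_cons] at hp
        have hz' : (decide (c.core.cnt (0 : Fin 1) = 0)) = false := by simp [hz]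
        have hp' : tbl q (some 2) false = some p := by rw [← hz']; exact hp
        rcases hq with rfl | rfl
        · simp [tbl] at hp'
        · simp [tbl] at hp'
  -- reading the letter `1`
  have hone : ∀ q : Fin 3, (q = 0 ∨ q = 1) → c.core.state = q → ∀ j, j + 1 ≤ m →
      c.rest = List.replicate (j + 1) 1 ++ tl → c.core.cnt (0 : Fin 1) = n - (m - (j + 1)) →
      Inv n m tl (c.exec ⟨p.1, true, fun _ => p.2⟩) := by
    intro q hq hst j hj hr hcnt
    right; left
    refine ⟨j, by omega, by simp [Cfg.exec, hr, List.replicate_succ], ?_⟩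
    rw [hst, hr] at hp
    simp only [List.replicate_succ, List.cons_append, List.head?_cons] at hp
    by_cases hz : c.core.cnt (0 : Fin 1) = 0
    · have hz' : (decide (c.core.cnt (0 : Fin 1) = 0)) = true := by simp [hz]
      have hp' : tbl q (some 1) true = some p := by rw [← hz']; exact hp
      have hp2 : p = (1, 0) := by
        rcases hq with rfl | rfl
        · simpa [tbl] using hp'.symm
        · simpa [tbl] using hp'.symm
      refine ⟨by simp [Cfg.exec, Core.exec, hp2], ?_⟩
      simp only [Cfg.exec, Core.exec, hp2, SignType.coe_zero, add_zero, Int.toNat_natCast]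
      omega
    · have hz' : (decide (c.core.cnt (0 : Fin 1) = 0)) = false := by simp [hz]
      have hp' : tbl q (some 1) false = some p := by rw [← hz']; exact hp
      have hp2 : p = (1, -1) := by
        rcases hq with rfl | rfl
        · simpa [tbl] using hp'.symm
        · simpa [tbl] using hp'.symm
      refine ⟨by simp [Cfg.exec, Core.exec, hp2], ?_⟩
      simp only [Cfg.exec, Core.exec, hp2, SignType.coe_neg_one]
      omega
  rcases h with ⟨i, hi, hr, hst, hcnt⟩ | ⟨j, hj, hr, hst, hcnt⟩ | ⟨hst, -, -, -⟩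
  · cases i with
    | zero =>
      simp only [List.replicate_zero, List.nil_append] at hr
      cases m with
      | zero =>
        simp only [List.replicate_zero, List.nil_append] at hr
        exact hlast 0 (Or.inl rfl) hst hr hcnt
      | succ m => exact hone 0 (Or.inl rfl) hst m le_rfl hr (by omega)
    | succ i =>
      left
      refine ⟨i, by omega, by simp [Cfg.exec, hr, List.replicate_succ], ?_⟩
      rw [hst, hr] at hp
      simp only [List.replicate_succ, List.cons_append, List.head?_cons] at hp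
      have hp2 : p = (0, 1) := by
        have : tbl 0 (some 0) (decide (c.core.cnt (0 : Fin 1) = 0)) = some p := hp
        simpa [tbl] using this.symm
      refine ⟨by simp [Cfg.exec, Core.exec, hp2], ?_⟩
      simp only [Cfg.exec, Core.exec, hp2, SignType.coe_one]
      omega
  · cases j with
    | zero =>
      simp only [List.replicate_zero, List.nil_append] at hr
      exact hlast 1 (Or.inr rfl) hst hr (by omega)
    | succ j => exact hone 1 (Or.inr rfl) hst j hj hr hcnt
  · exact (hfin hst).elim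

theorem inv_reaches {n m : ℕ} {tl : List (Fin 3)} (htl : tl = [] ∨ tl = [2])
    {C : Cfg W.Q (Fin 3) W.k}
    (h : Reaches v W (init W (List.replicate n 0 ++ (List.replicate m 1 ++ tl))) C) :
    Inv n m tl C := by
  induction h with
  | refl => left; exact ⟨n, le_rfl, rfl, rfl, by simp [init]⟩
  | tail _ hs ih => exact inv_step htl ih hs

theorem W_not_mem (c n m : ℕ) :
    List.replicate n (0 : Fin 3) ++ List.replicate m 1 ∉ LR v c W := by
  rintro ⟨C, h1, h2, -⟩
  have h3 : Inv n m [] C := inv_reaches (v := v) (Or.inl rfl) (by simpa using h1)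
  have h4 : C.core.state = (2 : Fin 3) := h2
  rcases h3 with ⟨i, -, -, hst, -⟩ | ⟨j, -, -, hst, -⟩ | ⟨-, hst, -⟩
  · exact absurd (show (2 : Fin 3) = 0 from h4.symm.trans hst) (by decide)
  · exact absurd (show (2 : Fin 3) = 1 from h4.symm.trans hst) (by decide)
  · exact absurd hst (by simp)

theorem W_le_of_mem {c n m : ℕ}
    (h : List.replicate n (0 : Fin 3) ++ (List.replicate m 1 ++ [2]) ∈ LR v c W) : n ≤ m := by
  obtain ⟨C, h1, h2, -⟩ := h
  have h3 : Inv n m [2] C := inv_reaches (v := v) (Or.inr rfl) h1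
  have h4 : C.core.state = (2 : Fin 3) := h2
  rcases h3 with ⟨i, -, -, hst, -⟩ | ⟨j, -, -, hst, -⟩ | ⟨-, -, -, h⟩
  · exact absurd (show (2 : Fin 3) = 0 from h4.symm.trans hst) (by decide)
  · exact absurd (show (2 : Fin 3) = 1 from h4.symm.trans hst) (by decide)
  · exact h

/-- A core of `W`. -/
def mkCore (q : Fin 3) (x : ℕ) (s : SignType) (r : ℕ) : Core W.Q W.k :=
  ⟨q, fun _ => x, fun _ => s, fun _ => r⟩

theorem eat_one {a : Fin 3} {q q' : Fin 3} {x : ℕ} {s t : SignType} {r : ℕ}
    (h : tbl q (some a) (decide (x = 0)) = some (q', t)) (hx : 0 ≤ (x : ℤ) + (t : ℤ))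
    {y : List (Fin 3)} {s' : Core W.Q W.k}
    (hy : Eat W y ((mkCore q x s r).exec ⟨q', true, fun _ => t⟩) s') :
    Eat W (a :: y) (mkCore q x s r) s' :=
  Eat.adv (μ := ⟨q', true, fun _ => t⟩) ⟨⟨(q', t), h, rfl⟩, fun _ => hx⟩ rfl hy

theorem Eat.append {α : Type} {M : Machine α} {x y : List α} {s t u : Core M.Q M.k}
    (h : Eat M x s t) (h' : Eat M y t u) : Eat M (x ++ y) s u := by
  induction h with
  | nil s => exact h'
  | stay h1 h2 _ ih => exact Eat.stay h1 h2 (ih h')
  | adv h1 h2 _ ih => exact Eat.adv h1 h2 (ih h')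

theorem exec_mk (q q' : Fin 3) (x : ℕ) (s t : SignType) (r : ℕ) :
    (mkCore q x s r).exec ⟨q', true, fun _ => t⟩ = mkCore q' ((x : ℤ) + (t : ℤ)).toNat
      (if t = 0 then s else t) (if s ≠ 0 ∧ t ≠ 0 ∧ t ≠ s then r + 1 else r) := rfl

theorem eat_a (n : ℕ) : ∀ (x : ℕ) (s : SignType), (s = 0 ∨ s = 1) →
    Eat W (List.replicate n 0) (mkCore 0 x s 0) (mkCore 0 (x + n) (if n = 0 then s else 1) 0) := by
  induction n with
  | zero => intro x s _; exact Eat.nil _
  | succ n ih =>
    intro x s hs
    rw [List.replicate_succ]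
    refine eat_one (q' := 0) (t := 1) (by simp [tbl]) (by simp; omega) ?_
    have he : (mkCore 0 x s 0).exec ⟨(0 : Fin 3), true, fun _ => 1⟩ = mkCore 0 (x + 1) 1 0 := by
      rw [exec_mk]
      have e1 : ((x : ℤ) + ((1 : SignType) : ℤ)).toNat = x + 1 := by simp
      rw [e1]
      rcases hs with rfl | rfl <;> simp
    have h2 := ih (x + 1) 1 (Or.inr rfl)
    have e2 : (if n = 0 then (1 : SignType) else 1) = 1 := by split_ifs <;> rfl
    have e3 : x + 1 + n = x + (n + 1) := by omega
    rw [e2, e3] at h2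
    rw [if_neg (Nat.succ_ne_zero n)]
    rw [he]
    exact h2

theorem eat_b (m : ℕ) : ∀ (x : ℕ) (s : SignType) (r : ℕ), (x = 0 ∨ s = -1) →
    Eat W (List.replicate m 1) (mkCore 1 x s r) (mkCore 1 (x - m) s r) := by
  induction m with
  | zero => intro x s r _; exact Eat.nil _
  | succ m ih =>
    intro x s r hs
    rw [List.replicate_succ]
    by_cases hx : x = 0
    · subst hx
      refine eat_one (q' := 1) (t := 0) (by simp [tbl]) (by simp) ?_
      have he : (mkCore 1 0 s r).exec ⟨(1 : Fin 3), true, fun _ => 0⟩ = mkCore 1 0 s r := by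
        rw [exec_mk]; simp
      have h2 := ih 0 s r (Or.inl rfl)
      have e3 : 0 - m = 0 - (m + 1) := by omega
      rw [e3] at h2
      rw [he]
      exact h2
    · have hs' : s = -1 := by
        rcases hs with h | h
        · exact absurd h hx
        · exact h
      subst hs'
      refine eat_one (q' := 1) (t := -1) (by simp [tbl, hx]) (by simp; omega) ?_
      have he : (mkCore 1 x (-1) r).exec ⟨(1 : Fin 3), true, fun _ => -1⟩ =
          mkCore 1 (x - 1) (-1) r := by
        rw [exec_mk]
        have e1 : ((x : ℤ) + ((-1 : SignType) : ℤ)).toNat = x - 1 := by simp; omega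
        rw [e1]
        simp
      have h2 := ih (x - 1) (-1) r (Or.inr rfl)
      have e3 : x - 1 - m = x - (m + 1) := by omega
      rw [e3] at h2
      rw [he]
      exact h2

theorem eat_e (q : Fin 3) (hq : q = 0 ∨ q = 1) (s : SignType) (r : ℕ) :
    Eat W [2] (mkCore q 0 s r) (mkCore 2 0 s r) := by
  refine eat_one (q' := 2) (t := 0) (by rcases hq with rfl | rfl <;> simp [tbl]) (by simp) ?_
  have he : (mkCore q 0 s r).exec ⟨(2 : Fin 3), true, fun _ => 0⟩ = mkCore 2 0 s r := by
    rw [exec_mk]; simp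
  rw [he]
  exact Eat.nil _

/-- The first letter `1`. -/
theorem eat_first (n : ℕ) : ∃ (s : SignType) (r : ℕ), r ≤ 1 ∧ (n - 1 = 0 ∨ s = -1) ∧
    Eat W [1] (mkCore 0 n (if n = 0 then 0 else 1) 0) (mkCore 1 (n - 1) s r) := by
  by_cases hn : n = 0
  · subst hn
    refine ⟨0, 0, by omega, Or.inl rfl, ?_⟩
    refine eat_one (q' := 1) (t := 0) (by simp [tbl]) (by simp) ?_
    have he : (mkCore 0 0 (if (0 : ℕ) = 0 then 0 else 1) 0).exec ⟨(1 : Fin 3), true, fun _ => 0⟩ =
        mkCore 1 (0 - 1) 0 0 := by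
      rw [exec_mk]; simp
    rw [he]
    exact Eat.nil _
  · refine ⟨-1, 1, le_rfl, Or.inr rfl, ?_⟩
    rw [if_neg hn]
    refine eat_one (q' := 1) (t := -1) (by simp [tbl, hn]) (by simp; omega) ?_
    have he : (mkCore 0 n 1 0).exec ⟨(1 : Fin 3), true, fun _ => -1⟩ =
        mkCore 1 (n - 1) (-1) 1 := by
      rw [exec_mk]
      have e1 : ((n : ℤ) + ((-1 : SignType) : ℤ)).toNat = n - 1 := by simp; omega
      rw [e1]
      simp
    rw [he]
    exact Eat.nil _

theorem W_mem_of_le {c n m : ℕ} (hc : 1 ≤ c) (h : n ≤ m) :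
    List.replicate n (0 : Fin 3) ++ (List.replicate m 1 ++ [2]) ∈ LR v c W := by
  have key : ∃ (s : SignType) (r : ℕ), r ≤ 1 ∧
      Eat W (List.replicate n (0 : Fin 3) ++ (List.replicate m 1 ++ [2])) (mkCore 0 0 0 0)
        (mkCore 2 0 s r) := by
    have h1 := eat_a n 0 0 (Or.inl rfl)
    rw [Nat.zero_add] at h1
    cases m with
    | zero =>
      have hn : n = 0 := by omega
      subst hn
      exact ⟨0, 0, by omega, eat_e 0 (Or.inl rfl) 0 0⟩
    | succ m =>
      obtain ⟨s, r, hr, hs, h2⟩ := eat_first n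
      have h3 := eat_b m (n - 1) s r hs
      have h4 : n - 1 - m = 0 := by omega
      rw [h4] at h3
      refine ⟨s, r, hr, ?_⟩
      have h5 := h1.append ((h2.append h3).append (eat_e 1 (Or.inr rfl) s r))
      simpa [List.replicate_succ] using h5
  obtain ⟨s, r, hr, he⟩ := key
  have h1 := he.reaches (v := v) []
  rw [List.append_nil] at h1
  refine ⟨⟨mkCore 2 0 s r, []⟩, h1, rfl, fun _ => rfl, fun _ => rfl, ?_⟩
  split_ifs
  · intro i
    exact hr.trans hc
  · have : ∑ i : Fin W.k, (mkCore 2 0 s r).rev i = r := by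
      show ∑ i : Fin 1, r = r
      simp
    rw [this]
    exact hr.trans hc

/-- For `c ≥ 1` the two families over a three-letter alphabet differ. -/
theorem ne_of_pos (v : Conv) {c : ℕ} (hc : 1 ≤ c) :
    QRDPBlind v c (Fin 3) ≠ QRDCounter v c (Fin 3) := by
  intro h
  have h1 : LR v c W ∈ QRDCounter v c (Fin 3) := ⟨W, W_deterministic, W_quasiRealtime, rfl⟩
  rw [← h] at h1
  obtain ⟨M, hb, hdet, hqr, hL⟩ := h1
  refine no_blind (c := c) hb hdet hqr (0 : Fin 3) 1 2 ?_ ?_
  · intro n m
    rw [← hL]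
    exact ⟨W_le_of_mem, W_mem_of_le hc⟩
  · intro n m
    rw [← hL]
    exact W_not_mem c n m

end Pool.Agent.Lib.MP_24384b_lc
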