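import Mathlib
import Pool.Agent.Lib.MP_24384b_lc.Lower

namespace Pool.Agent.Lib.MP_24384b_lc

variable {α : Type} {v : Conv} {M : Machine α}

/-- The partially blind machine that keeps only the moves of `M` that are made with empty
counters and change no counter. -/
def blind (M : Machine α) : Machine α where
  Q := M.Q
  finite := M.finite
  k := M.k
  start := M.start
  final := M.final
  moves q x _ := {μ | μ ∈ M.moves q x (fun _ => true) ∧ ∀ i, μ.change i = 0}

theorem blind_partiallyBlind (M : Machine α) : PartiallyBlind (blind M) := fun _ _ _ _ => rfl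

theorem exec_zero {Q : Type} {k : ℕ} {s : Core Q k} {μ : Move Q k} (h : ∀ i, μ.change i = 0) :
    (s.exec μ).cnt = s.cnt ∧ (s.exec μ).dir = s.dir ∧ (s.exec μ).rev = s.rev := by
  refine ⟨?_, ?_, ?_⟩
  · funext i
    simp [Core.exec, h i]
  · funext i
    simp [Core.exec, h i]
  · funext i
    simp [Core.exec, h i]

theorem possible_of_blind {c : Cfg M.Q α M.k} (h0 : ∀ i, c.core.cnt i = 0)
    {μ : Move M.Q M.k} (h : Possible v (blind M) c μ) : Possible v M c μ := by
  obtain ⟨⟨h1, h2⟩, h3⟩ := h
  refine ⟨⟨?_, h2⟩, h3⟩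
  have : (fun i => decide (c.core.cnt i = 0)) = fun _ => true := by
    funext i; simp [h0 i]
  rw [this]
  exact h1.1

theorem reaches_blind {w : List α} {C : Cfg M.Q α M.k}
    (h : Reaches v (blind M) (init (blind M) w) C) :
    Reaches v M (init M w) C ∧ ∀ i, C.core.cnt i = 0 := by
  induction h with
  | refl => exact ⟨Relation.ReflTransGen.refl, fun i => rfl⟩
  | @tail b c _ hstep ih =>
    obtain ⟨ih1, ih2⟩ := ih
    obtain ⟨μ, hμ, rfl⟩ := hstep
    have hp := possible_of_blind ih2 hμ
    refine ⟨Relation.ReflTransGen.tail ih1 ⟨μ, hp, rfl⟩, ?_⟩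
    have h0 : ∀ i, μ.change i = 0 := hμ.1.1.2
    intro i
    have := (exec_zero (s := b.core) h0).1
    show (b.core.exec μ).cnt i = 0
    rw [this]
    exact ih2 i

theorem stayN_blind : ∀ {n : ℕ} {c c' : Cfg M.Q α M.k}, (∀ i, c.core.cnt i = 0) →
    StayN v (blind M) n c c' → StayN v M n c c' := by
  intro n
  induction n with
  | zero => intro c c' _ h; exact h
  | succ n ih =>
    rintro c c' h0 ⟨c₁, ⟨μ, hμ, hc⟩, h2, h3⟩
    have hp := possible_of_blind h0 hμ
    refine ⟨c₁, ⟨μ, hp, hc⟩, h2, ih ?_ h3⟩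
    intro i
    have h0' : ∀ i, μ.change i = 0 := hμ.1.1.2
    have := (exec_zero (s := c.core) h0').1
    rw [hc]
    show (c.core.exec μ).cnt i = 0
    rw [this]
    exact h0 i

theorem cfg_zero {Q : Type} {k : ℕ} (c : Cfg Q α k) (h : ∀ i, c.core.cnt i = 0) :
    (⟨{ c.core with cnt := fun _ => 0 }, c.rest⟩ : Cfg Q α k) = c := by
  cases c with
  | mk core rest =>
    cases core with
    | mk st cn di re =>
      simp only [Cfg.mk.injEq, Core.mk.injEq, and_true, true_and]
      funext i
      exact (h i).symm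

theorem blind_deterministic (h : Deterministic v M) : Deterministic v (blind M) := by
  intro c hc μ μ' hμ hμ'
  let c₀ : Cfg M.Q α M.k := ⟨{ c.core with cnt := fun _ => 0 }, c.rest⟩
  have key : ∀ μ : Move M.Q M.k, Possible v (blind M) c μ → Possible v M c₀ μ := by
    intro μ hμ
    obtain ⟨⟨h1, h2⟩, h3⟩ := hμ
    refine possible_of_blind (M := M) (fun i => rfl) ⟨⟨h1, fun i => ?_⟩, h3⟩
    have : μ.change i = 0 := h1.2 i
    simp [c₀, this]
  refine h c₀ ?_ μ μ' (key μ hμ) (key μ' hμ')
  intro hv
  obtain ⟨w, hw⟩ := hc hv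
  obtain ⟨h1, h2⟩ := reaches_blind hw
  refine ⟨w, ?_⟩
  have : c₀ = c := cfg_zero (Q := M.Q) (k := M.k) c h2
  rw [this]
  exact h1

theorem blind_quasiRealtime (h : QuasiRealtime v M) : QuasiRealtime v (blind M) := by
  obtain ⟨d, hd⟩ := h
  refine ⟨d, fun w c hc n c' hn => ?_⟩
  obtain ⟨h1, h2⟩ := reaches_blind hc
  exact hd w c h1 n c' (stayN_blind h2 hn)

theorem pos_of_dir {c C : Cfg M.Q α M.k} (h : Reaches v M c C) (hC : ∀ i, C.core.rev i = 0)
    (i : Fin M.k) : c.core.dir i = 1 → 1 ≤ c.core.cnt i → 1 ≤ C.core.cnt i := by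
  induction h using Relation.ReflTransGen.head_induction_on with
  | refl => exact fun _ h => h
  | @head c c₁ hstep hrest ih =>
    intro h1 h2
    have hrev : c₁.core.rev i = 0 := by
      have := Reaches.rev_le hrest i
      rw [hC i] at this
      omega
    obtain ⟨μ, hE, hc, -⟩ := hstep.cases
    have h3 := hE.2 i
    rw [hc] at ih hrev
    simp only [Core.exec] at ih hrev
    cases hch : μ.change i with
    | zero =>
      rw [hch] at ih
      simp only [SignType.zero_eq_zero, if_true, SignType.coe_zero, add_zero] at ih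
      exact ih h1 (by omega)
    | neg =>
      exfalso
      rw [hch, h1] at hrev
      simp at hrev
    | pos =>
      rw [hch] at ih
      simp only [SignType.pos_eq_one, one_ne_zero, if_false, SignType.coe_one, true_implies] at ih
      exact ih (by omega)

theorem reaches_blind_of {c C : Cfg M.Q α M.k} (h : Reaches v M c C)
    (hC : ∀ i, C.core.rev i = 0) (hC0 : ∀ i, C.core.cnt i = 0) :
    (∀ i, c.core.cnt i = 0) → (∀ i, c.core.dir i = 0) → Reaches v (blind M) c C := by
  induction h using Relation.ReflTransGen.head_induction_on with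
  | refl => exact fun _ _ => Relation.ReflTransGen.refl
  | @head c c₁ hstep hrest ih =>
    intro h1 h2
    obtain ⟨μ, hμ, hc⟩ := hstep
    have h0 : ∀ i, μ.change i = 0 := by
      intro i
      cases hch : μ.change i with
      | zero => rfl
      | neg =>
        exfalso
        have := hμ.1.2 i
        rw [hch, h1 i] at this
        simp at this
      | pos =>
        exfalso
        have e1 : c₁.core.dir i = 1 := by
          rw [hc]
          simp [Cfg.exec, Core.exec, hch]
        have e2 : 1 ≤ c₁.core.cnt i := by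
          rw [hc]
          simp [Cfg.exec, Core.exec, hch, h1 i]
        have := pos_of_dir hrest hC i e1 e2
        rw [hC0 i] at this
        omega
    have hp : Possible v (blind M) c μ := by
      refine ⟨⟨⟨?_, h0⟩, hμ.1.2⟩, hμ.2⟩
      have : (fun i => decide (c.core.cnt i = 0)) = fun _ => true := by
        funext i; simp [h1 i]
      rw [← this]
      exact hμ.1.1
    obtain ⟨e1, e2, e3⟩ := exec_zero (s := c.core) h0
    refine Relation.ReflTransGen.head (⟨μ, hp, hc⟩ : Step v (blind M) c c₁) (ih ?_ ?_)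
    · intro i
      rw [hc]
      show (c.core.exec μ).cnt i = 0
      rw [e1]; exact h1 i
    · intro i
      rw [hc]
      show (c.core.exec μ).dir i = 0
      rw [e2]; exact h2 i

theorem LR_blind (v : Conv) (M : Machine α) : LR v 0 M = LR v 0 (blind M) := by
  ext w
  constructor
  · rintro ⟨C, h1, h2, h3, h4, h5⟩
    have h6 : ∀ i, C.core.rev i = 0 := fun i => Nat.le_zero.1 (rev_le_of h5 i)
    exact ⟨C, reaches_blind_of h1 h6 h3 (fun _ => rfl) (fun _ => rfl), h2, h3, h4, h5⟩
  · rintro ⟨C, h1, h2, h3, h4, h5⟩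
    exact ⟨C, (reaches_blind h1).1, h2, h3, h4, h5⟩

theorem blind_sub (v : Conv) (c : ℕ) (α : Type) : QRDPBlind v c α ⊆ QRDCounter v c α := by
  rintro L ⟨M, -, h1, h2, h3⟩
  exact ⟨M, h1, h2, h3⟩

theorem eq_zero (v : Conv) (α : Type) : QRDPBlind v 0 α = QRDCounter v 0 α := by
  refine Set.Subset.antisymm (blind_sub v 0 α) ?_
  rintro L ⟨M, h1, h2, h3⟩
  refine ⟨blind M, blind_partiallyBlind M, blind_deterministic h1, blind_quasiRealtime h2, ?_⟩
  rw [h3, LR_blind]

end Pool.Agent.Lib.MP_24384b_lc
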